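import Mathlib

set_option autoImplicit false

namespace Pool.Agent.Results.MP_fe8c60_co.ClawFreeBends
open Finset

/-- A path `pt 0, pt 1, …, pt len` in the square grid `ℤ²`. -/
structure GridPath where
  len : ℕ
  pt : ℕ → ℤ × ℤ
  adj : ∀ i < len, |(pt (i + 1)).1 - (pt i).1| + |(pt (i + 1)).2 - (pt i).2| = 1
  inj : ∀ i ≤ len, ∀ j ≤ len, pt i = pt j → i = j

/-- the `i`-th edge `pt i, pt (i+1)` is horizontal. -/
def GridPath.horiz (P : GridPath) (i : ℕ) : Bool := decide ((P.pt (i + 1)).2 = (P.pt i).2)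

/-- the number of interior vertices `pt (i+1)` at which the path switches between a horizontal
and a vertical edge. -/
def GridPath.bends (P : GridPath) : ℕ :=
  ((range (P.len - 1)).filter fun i => P.horiz i ≠ P.horiz (i + 1)).card

/-- the grid edges of the path. -/
def GridPath.edges (P : GridPath) : Set (Sym2 (ℤ × ℤ)) :=
  {e | ∃ i < P.len, e = s(P.pt i, P.pt (i + 1))}

/-- `G` has a `k`-bend EPG representation. -/
def HasEPG {V : Type} (G : SimpleGraph V) (k : ℕ) : Prop :=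
  ∃ P : V → GridPath, (∀ v, (P v).bends ≤ k) ∧
    ∀ u v, u ≠ v → (G.Adj u v ↔ ((P u).edges ∩ (P v).edges).Nonempty)

/-- no induced `K_{1,3}`. -/
def ClawFree {V : Type} (G : SimpleGraph V) : Prop :=
  ∀ a b c d, G.Adj a b → G.Adj a c → G.Adj a d → b ≠ c → b ≠ d → c ≠ d →
    G.Adj b c ∨ G.Adj b d ∨ G.Adj c d

abbrev Seg := Bool × ℤ × ℤ × ℤ

def code (P : GridPath) (i : ℕ) : Bool × ℤ × ℤ :=
  if P.horiz i then (true, (P.pt i).2, min (P.pt i).1 (P.pt (i + 1)).1)
  else (false, (P.pt i).1, min (P.pt i).2 (P.pt (i + 1)).2)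

def mem (x : Bool × ℤ × ℤ) (s : Seg) : Prop :=
  x.1 = s.1 ∧ x.2.1 = s.2.1 ∧ s.2.2.1 ≤ x.2.2 ∧ x.2.2 ≤ s.2.2.2

theorem cases_adj (P : GridPath) (i : ℕ) (hi : i < P.len) :
    ((P.pt (i + 1)).2 = (P.pt i).2 ∧
      ((P.pt (i + 1)).1 = (P.pt i).1 + 1 ∨ (P.pt (i + 1)).1 = (P.pt i).1 - 1)) ∨
    ((P.pt (i + 1)).1 = (P.pt i).1 ∧
      ((P.pt (i + 1)).2 = (P.pt i).2 + 1 ∨ (P.pt (i + 1)).2 = (P.pt i).2 - 1)) := by
  have h := P.adj i hi
  rcases abs_cases ((P.pt (i + 1)).1 - (P.pt i).1) with h1 | h1 <;>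
    rcases abs_cases ((P.pt (i + 1)).2 - (P.pt i).2) with h2 | h2 <;> omega

theorem code_iff (P Q : GridPath) (i j : ℕ) (hi : i < P.len) (hj : j < Q.len) :
    s(P.pt i, P.pt (i + 1)) = s(Q.pt j, Q.pt (j + 1)) ↔ code P i = code Q j := by
  have h1 := cases_adj P i hi
  have h2 := cases_adj Q j hj
  unfold code GridPath.horiz
  rw [Sym2.eq_iff]
  simp only [decide_eq_true_eq]
  split_ifs <;> simp only [Prod.ext_iff, Bool.true_eq_false, Bool.false_eq_true, false_and,
    true_and, iff_false] <;> omega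

theorem code_next (P : GridPath) (i : ℕ) (hi : i + 1 < P.len) (h : P.horiz i = P.horiz (i + 1)) :
    (code P (i + 1)).1 = (code P i).1 ∧ (code P (i + 1)).2.1 = (code P i).2.1 ∧
      (code P (i + 1)).2.2 ≤ (code P i).2.2 + 1 ∧ (code P i).2.2 ≤ (code P (i + 1)).2.2 + 1 := by
  have h1 := cases_adj P i (by omega)
  have h2 := cases_adj P (i + 1) hi
  unfold code
  rw [← h]
  unfold GridPath.horiz at h ⊢
  by_cases hh : (P.pt (i + 1)).2 = (P.pt i).2
  · have h3 : (P.pt (i + 1 + 1)).2 = (P.pt (i + 1)).2 := by simpa [hh] using h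
    simp only [hh, decide_true, if_true, true_and]
    omega
  · have h3 : ¬ (P.pt (i + 1 + 1)).2 = (P.pt (i + 1)).2 := by simpa [hh] using h
    simp only [hh, decide_false, Bool.false_eq_true, if_false, true_and]
    omega

theorem segs_aux (P : GridPath) (L : ℕ) (hL : L + 1 ≤ P.len) :
    ∃ (s : Seg) (l : List Seg),
      l.length = ((range L).filter fun i => P.horiz i ≠ P.horiz (i + 1)).card ∧
      mem (code P L) s ∧ (∀ t ∈ s :: l, t.2.2.1 ≤ t.2.2.2) ∧
      ∀ x, (∃ i < L + 1, code P i = x) ↔ ∃ t ∈ s :: l, mem x t := by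
  induction L with
  | zero =>
    refine ⟨((code P 0).1, (code P 0).2.1, (code P 0).2.2, (code P 0).2.2), [], by simp,
      by simp [mem], by simp, fun x => ?_⟩
    simp only [zero_add, Nat.lt_one_iff, exists_eq_left, List.mem_singleton]
    simp only [mem, Prod.ext_iff]
    constructor
    · rintro ⟨h1, h2, h3⟩; exact ⟨h1.symm, h2.symm, h3.le, h3.ge⟩
    · rintro ⟨h1, h2, h3, h4⟩; exact ⟨h1.symm, h2.symm, le_antisymm h3 h4⟩
  | succ L ih =>
    obtain ⟨s, l, h1, h2, h3, h4⟩ := ih (by omega)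
    have hsplit : ∀ x, (∃ i < L + 1 + 1, code P i = x) ↔
        code P (L + 1) = x ∨ ∃ t ∈ s :: l, mem x t := by
      intro x
      rw [← h4]
      constructor
      · rintro ⟨i, hi, rfl⟩
        by_cases e : i = L + 1
        · exact Or.inl (by rw [e])
        · exact Or.inr ⟨i, by omega, rfl⟩
      · rintro (rfl | ⟨i, hi, rfl⟩)
        · exact ⟨_, by omega, rfl⟩
        · exact ⟨i, by omega, rfl⟩
    by_cases hb : P.horiz L = P.horiz (L + 1)
    · obtain ⟨c1, c2, c3, c4⟩ := code_next P L (by omega) hb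
      obtain ⟨m1, m2, m3, m4⟩ := h2
      refine ⟨(s.1, s.2.1, min s.2.2.1 (code P (L + 1)).2.2, max s.2.2.2 (code P (L + 1)).2.2),
        l, ?_, ?_, ?_, fun x => ?_⟩
      · rw [range_add_one, filter_insert, if_neg (by simpa using hb), h1]
      · exact ⟨c1.trans m1, c2.trans m2, min_le_right _ _, le_max_right _ _⟩
      · intro t ht
        rcases List.mem_cons.1 ht with rfl | ht
        · exact le_trans (min_le_right _ _) (le_max_right _ _)
        · exact h3 t (List.mem_cons_of_mem _ ht)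
      · rw [hsplit]
        simp only [List.mem_cons, exists_eq_or_imp, ← or_assoc]
        refine or_congr_left ?_
        simp only [mem, Prod.ext_iff]
        rw [c1, c2, m1, m2]
        constructor
        · rintro (⟨a1, a2, a3⟩ | ⟨a1, a2, a3, a4⟩)
          · exact ⟨a1.symm, a2.symm, by omega, by omega⟩
          · exact ⟨a1, a2, by omega, by omega⟩
        · rintro ⟨a1, a2, a3, a4⟩
          by_cases e : (code P (L + 1)).2.2 = x.2.2
          · exact Or.inl ⟨a1.symm, a2.symm, e⟩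
          · exact Or.inr ⟨a1, a2, by omega, by omega⟩
    · refine ⟨((code P (L + 1)).1, (code P (L + 1)).2.1, (code P (L + 1)).2.2,
        (code P (L + 1)).2.2), s :: l, ?_, by simp [mem], ?_, fun x => ?_⟩
      · rw [range_add_one, filter_insert, if_pos hb, card_insert_of_notMem (by simp),
          List.length_cons, h1]
      · intro t ht
        rcases List.mem_cons.1 ht with rfl | ht
        · exact le_rfl
        · exact h3 t ht
      · rw [hsplit]
        conv_rhs => simp only [List.mem_cons (l := s :: l), exists_eq_or_imp]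
        refine or_congr_left ?_
        simp only [mem, Prod.ext_iff]
        constructor
        · rintro ⟨h1, h2, h3⟩; exact ⟨h1.symm, h2.symm, h3.le, h3.ge⟩
        · rintro ⟨h1, h2, h3, h4⟩; exact ⟨h1.symm, h2.symm, le_antisymm h3 h4⟩

theorem segs (P : GridPath) : ∃ l : List Seg, l.length ≤ P.bends + 1 ∧
    (∀ t ∈ l, t.2.2.1 ≤ t.2.2.2) ∧ ∀ x, (∃ i < P.len, code P i = x) ↔ ∃ t ∈ l, mem x t := by
  rcases Nat.eq_zero_or_pos P.len with h | h
  · exact ⟨[], by simp, by simp, by simp [h]⟩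
  · obtain ⟨s, l, h1, -, h3, h4⟩ := segs_aux P (P.len - 1) (by omega)
    refine ⟨s :: l, by rw [List.length_cons, h1]; rfl, h3, ?_⟩
    rwa [show P.len - 1 + 1 = P.len by omega] at h4

theorem up_mem (A : Finset Seg) (g : Seg → ℤ) (a : ℤ) :
    A.filter (fun τ => a ≤ g τ) ∈ insert ∅ (A.image fun σ => A.filter fun τ => g σ ≤ g τ) := by
  rcases (A.filter fun τ => a ≤ g τ).eq_empty_or_nonempty with h | h
  · rw [h]; exact mem_insert_self _ _
  · obtain ⟨σ, h1, h2⟩ := exists_min_image _ g h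
    refine mem_insert_of_mem (mem_image.2 ⟨σ, (mem_filter.1 h1).1, ?_⟩)
    ext τ
    simp only [mem_filter]
    exact and_congr_right fun hτ => ⟨fun h3 => le_trans (mem_filter.1 h1).2 h3,
      fun h3 => h2 τ (mem_filter.2 ⟨hτ, h3⟩)⟩

def meets (s t : Seg) : Prop :=
  (s.1 = t.1 ∧ s.2.1 = t.2.1) ∧ s.2.2.1 ≤ t.2.2.2 ∧ -s.2.2.2 ≤ -t.2.2.1

instance (s t : Seg) : Decidable (meets s t) := by unfold meets; infer_instance

theorem traces (A : Finset Seg) : ∃ T : Finset (Finset Seg), T.card ≤ (A.card + 1) ^ 3 ∧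
    ∅ ∈ T ∧ ∀ s, A.filter (meets s) ∈ T := by
  let X := insert ∅ (A.image fun σ => A.filter fun τ => σ.1 = τ.1 ∧ σ.2.1 = τ.2.1)
  let Y := insert ∅ (A.image fun σ => A.filter fun τ => σ.2.2.2 ≤ τ.2.2.2)
  let Z := insert ∅ (A.image fun σ => A.filter fun τ => -σ.2.2.1 ≤ -τ.2.2.1)
  have hX : X.card ≤ A.card + 1 :=
    le_trans (card_insert_le _ _) (Nat.succ_le_succ card_image_le)
  have hY : Y.card ≤ A.card + 1 :=
    le_trans (card_insert_le _ _) (Nat.succ_le_succ card_image_le)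
  have hZ : Z.card ≤ A.card + 1 :=
    le_trans (card_insert_le _ _) (Nat.succ_le_succ card_image_le)
  refine ⟨(X ×ˢ Y ×ˢ Z).image fun p => p.1 ∩ (p.2.1 ∩ p.2.2), ?_, ?_, fun s => ?_⟩
  · refine le_trans card_image_le ?_
    rw [card_product, card_product, pow_succ', pow_two]
    exact Nat.mul_le_mul hX (Nat.mul_le_mul hY hZ)
  · exact mem_image.2 ⟨(∅, ∅, ∅), by simp [X, Y, Z], by simp⟩
  · refine mem_image.2 ⟨(A.filter fun τ => s.1 = τ.1 ∧ s.2.1 = τ.2.1,
      A.filter fun τ => s.2.2.1 ≤ τ.2.2.2, A.filter fun τ => -s.2.2.2 ≤ -τ.2.2.1), ?_, ?_⟩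
    · refine mem_product.2 ⟨?_, mem_product.2 ⟨up_mem A (fun τ => τ.2.2.2) _,
        up_mem A (fun τ => -τ.2.2.1) _⟩⟩
      rcases (A.filter fun τ => s.1 = τ.1 ∧ s.2.1 = τ.2.1).eq_empty_or_nonempty with h | ⟨σ, h⟩
      · show _ ∈ insert _ _
        rw [h]; exact mem_insert_self _ _
      · obtain ⟨h1, h2, h3⟩ := mem_filter.1 h
        refine mem_insert_of_mem (mem_image.2 ⟨σ, h1, ?_⟩)
        rw [h2, h3]
    · ext τ
      simp only [mem_inter, mem_filter, meets]
      tauto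

theorem num (K : ℕ) : ∃ m : ℕ, ((m * K + 1) ^ 3) ^ K < 2 ^ m := by
  refine ⟨2 ^ (4 * K + 4), ?_⟩
  have h1 : K + 1 ≤ 2 ^ K := Nat.lt_two_pow_self
  have h0 : 1 ≤ 2 ^ (4 * K + 4) := Nat.one_le_two_pow
  have h2 : 2 ^ (4 * K + 4) * K + 1 ≤ 2 ^ (5 * K + 4) := by
    calc 2 ^ (4 * K + 4) * K + 1 ≤ 2 ^ (4 * K + 4) * (K + 1) := by rw [mul_add, mul_one]; omega
      _ ≤ 2 ^ (4 * K + 4) * 2 ^ K := Nat.mul_le_mul_left _ h1
      _ = 2 ^ (5 * K + 4) := by rw [← pow_add]; congr 1; ring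
  have h3 : (5 * K + 4) * 3 * K < 2 ^ (4 * K + 4) := by
    have : 2 ^ (4 * K + 4) = 16 * (2 ^ K) ^ 4 := by ring
    rw [this]
    have h4 : (K + 1) ^ 4 ≤ (2 ^ K) ^ 4 := Nat.pow_le_pow_left h1 4
    nlinarith [Nat.zero_le (K ^ 4), Nat.zero_le (K ^ 3), Nat.zero_le (K ^ 2)]
  calc ((2 ^ (4 * K + 4) * K + 1) ^ 3) ^ K ≤ ((2 ^ (5 * K + 4)) ^ 3) ^ K :=
        Nat.pow_le_pow_left (Nat.pow_le_pow_left h2 3) K
    _ = 2 ^ ((5 * K + 4) * 3 * K) := by rw [← pow_mul, ← pow_mul, mul_assoc]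
    _ < _ := Nat.pow_lt_pow_right (by norm_num) h3

def rel (m : ℕ) : Fin m ⊕ Finset (Fin m) → Fin m ⊕ Finset (Fin m) → Prop
  | .inl _, .inl _ => True
  | .inr _, .inr _ => True
  | .inl i, .inr S => i ∈ S
  | .inr _, .inl _ => False

/-- For every `k` some finite claw-free graph has no `k`-bend EPG representation. -/
theorem result (k : ℕ) :
    ∃ (V : Type) (_ : Fintype V) (G : SimpleGraph V), ClawFree G ∧ ¬ HasEPG G k := by
  classical
  obtain ⟨m, hm⟩ := num (k + 1)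
  refine ⟨Fin m ⊕ Finset (Fin m), inferInstance, SimpleGraph.fromRel (rel m), ?_, ?_⟩
  · intro a b c d _ _ _ h1 h2 h3
    simp only [SimpleGraph.fromRel_adj]
    rcases b with b | b <;> rcases c with c | c <;> rcases d with d | d <;> simp_all [rel]
  · rintro ⟨P, hb, hP⟩
    choose l hl1 hl2 hl3 using fun v => segs (P v)
    have hlen : ∀ v, (l v).length ≤ k + 1 := fun v => le_trans (hl1 v) (Nat.succ_le_succ (hb v))
    let A : Finset Seg := univ.biUnion fun i : Fin m => (l (.inl i)).toFinset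
    have hA : A.card ≤ m * (k + 1) := by
      refine le_trans card_biUnion_le ?_
      refine le_trans (sum_le_card_nsmul _ _ (k + 1) fun i _ =>
        le_trans (List.toFinset_card_le _) (hlen _)) ?_
      simp
    obtain ⟨T, hT1, hT2, hT3⟩ := traces A
    let Φ : Finset (Fin m) → Fin (k + 1) → Finset Seg := fun S j =>
      if h : j.1 < (l (.inr S)).length then A.filter (meets (l (.inr S))[j.1]) else ∅
    have key : ∀ S i, i ∈ S ↔ ∃ j, ∃ σ ∈ l (.inl i), σ ∈ Φ S j := by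
      intro S i
      have h1 : i ∈ S ↔ (SimpleGraph.fromRel (rel m)).Adj (.inl i) (.inr S) := by
        simp [SimpleGraph.fromRel_adj, rel]
      rw [h1, hP _ _ (by simp)]
      constructor
      · rintro ⟨e, ⟨a, ha, rfl⟩, b, hb', h⟩
        rw [code_iff _ _ _ _ ha hb'] at h
        obtain ⟨σ, hσ, m1⟩ := (hl3 (.inl i) _).1 ⟨a, ha, rfl⟩
        obtain ⟨τ, hτ, m2⟩ := (hl3 (.inr S) _).1 ⟨b, hb', h.symm⟩
        obtain ⟨j, hj, rfl⟩ := List.getElem_of_mem hτ
        refine ⟨⟨j, lt_of_lt_of_le hj (hlen _)⟩, σ, hσ, ?_⟩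
        simp only [Φ, hj, dif_pos, mem_filter]
        refine ⟨mem_biUnion.2 ⟨i, mem_univ _, List.mem_toFinset.2 hσ⟩, ?_⟩
        obtain ⟨a1, a2, a3, a4⟩ := m1
        obtain ⟨b1, b2, b3, b4⟩ := m2
        exact ⟨⟨b1.symm.trans a1, b2.symm.trans a2⟩, by omega, by omega⟩
      · rintro ⟨j, σ, hσ, h⟩
        by_cases hj : j.1 < (l (.inr S)).length
        · simp only [Φ, hj, dif_pos, mem_filter] at h
          obtain ⟨-, ⟨c1, c2⟩, c3, c4⟩ := h
          have hτ := List.getElem_mem hj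
          generalize (l (.inr S))[j.1] = τ at *
          have d1 := hl2 _ σ hσ
          have d2 := hl2 _ τ hτ
          obtain ⟨a, ha, e1⟩ := (hl3 (.inl i) (σ.1, σ.2.1, max σ.2.2.1 τ.2.2.1)).2
            ⟨σ, hσ, rfl, rfl, le_max_left _ _, max_le d1 c3⟩
          obtain ⟨b, hb', e2⟩ := (hl3 (.inr S) (σ.1, σ.2.1, max σ.2.2.1 τ.2.2.1)).2
            ⟨τ, hτ, c1.symm, c2.symm, le_max_right _ _, max_le (by omega) d2⟩
          exact ⟨_, ⟨a, ha, rfl⟩, b, hb', (code_iff _ _ _ _ ha hb').2 (e1.trans e2.symm)⟩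
        · simp [Φ, hj] at h
    have hinj : Function.Injective Φ := by
      intro S S' h
      ext i
      rw [key, key, h]
    have hcard : (univ : Finset (Finset (Fin m))).card ≤
        (Fintype.piFinset fun _ : Fin (k + 1) => T).card := by
      refine card_le_card_of_injOn Φ (fun S _ => ?_) hinj.injOn
      rw [mem_coe, Fintype.mem_piFinset]
      intro j
      by_cases hj : j.1 < (l (.inr S)).length
      · simp only [Φ, hj, dif_pos]; exact hT3 _
      · simp only [Φ, hj, dif_neg, not_false_eq_true]; exact hT2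
    rw [card_univ, Fintype.card_finset, Fintype.card_fin, Fintype.card_piFinset, prod_const,
      card_univ, Fintype.card_fin] at hcard
    have h5 : T.card ^ (k + 1) ≤ ((m * (k + 1) + 1) ^ 3) ^ (k + 1) :=
      Nat.pow_le_pow_left (le_trans hT1 (Nat.pow_le_pow_left (by omega) 3)) _
    omega

end Pool.Agent.Results.MP_fe8c60_co.ClawFreeBends
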